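import Pool.Agent.U569.APL.BigQ
import Pool.Agent.Results.MP_9a3c31_nt.ThinSequences

/-!
# Lang and Silverman's lower bound for elliptic curves with parameters formed from arbitrary sets, for all forms of the
# powers of all their twists

Let `J = A / D` be a rational function over `ℚ` in `r` variables, for example the `j`-invariant of an elliptic curve over
`ℚ(t₁, …, t_r)`, whose reductions modulo the primes have many poles in the mean (`MeanPoles`); this is so for the universal
family `y² = x³ + t₁ x + t₂`. `Holds c d g κ A D v` (starting file `ThinSequences`): for all elliptic curves `E` of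
invariant `J (v)` over all number fields `K` of degree at most `d`, for all forms `A` over `K` of `E ^ g`, all
polarizations of `A` and all `P` in `A(K)` with `End(A) P` dense in `A` (or of infinite order and generating the splitting
field), the canonical height of `P` is at least `c` times (1 + the height of `j` + the logarithm of the norm of the
ramified primes of the splitting field per degree). (The curve is given by an integral equation whose
coefficients have height at most `κ (1 + h(j))`; there is one with a `κ` depending only on `d`.)

**Theorem.** For every `ε > 0`, `β > 0`, `B`, `d`, `g ≥ 1` and `κ ≥ 0` there is a constant `c > 0` such that for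
every sequence (`j = 0, 1, 2, …`) of finite families of integral vectors of the following kind `Holds c d g κ A D v` for
all but the fraction `ε` of the members `v` of the `j`-th family, for large `j`. The members are `c₀ + y`, where
`|c₀| ≤ q ^ B` and `y` is one of the following vectors (represented by `0, …, q - 1`), `q → ∞`:

* `y` in any family of vectors modulo `q` whose nontrivial Fourier coefficients are at most
  `1 / (Z (42 + 3 log q) ^ r)`, `q ^ β ≤ Z ≤ q` (`PowerFlat`);
* (the last four with `q = P` prime, `0 < δ ≤ 1` and `β = δ / 8`) `b(x, z) + u(x) + w(z)`, where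
  `b : k ^ m × k ^ n → k ^ r` is bilinear, the nontrivial combinations of its coordinates have rank at least `ρ`, `x`
  and `z` are in ARBITRARY sets `E` and `F` with `|E| |F| ≥ P ^ (m + n - ρ + δ)`, `u` and `w` are arbitrary functions;
* the same for `b(x, z) = x z`, `x` and `z` in ARBITRARY subsets of the field of `P ^ r` elements,
  `|E| |F| ≥ P ^ (r + δ)`;
* polynomials in `k` variables of degree at most `P ^ (δ / 4)`, all nontrivial combinations of which have a monomial with
  at least two variables, plus arbitrary functions of the single variables, on products of `k` ARBITRARY sets of at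
  least `P ^ (1 / 2 + δ)` residues; for example (`r = 2`, `k = 3`) all but `ε |S| ³` of the curves
  `y² = x³ + (a b mod P) x + (a b c mod P)`, `a, b, c ∈ S`;
* polynomials in one variable of degree at most `P ^ (δ / 4)`, no nontrivial combination of which is constant, on any
  subgroup of the multiplicative group modulo `P` with at least `P ^ (1 / 2 + δ)` elements.

New: the families. Starting libraries: `N384.VF` (large prime divisors of the denominator at vectors of residues) and
`N365.LS.of_enough` (a large prime in the denominator is enough for the bound); the estimates of the Fourier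
coefficients on arbitrary sets are in `U569/APL`.
-/

set_option autoImplicit false

namespace Pool.Agent.Results.MP_9a3c31_nt.ArbitrarySets

open MvPolynomial Filter
open Pool.Agent.Results.MP_9a3c31_nt.ThinSequences (Holds MeanPoles)
open Pool.Agent.U569.APL

theorem result (r : ℕ) (A D : MvPolynomial (Fin r) ℤ) (hD : D ≠ 0) (hM : MeanPoles A D) (B : ℕ) :
    (∀ (d g : ℕ) (κ ε β : ℝ), 0 < g → 0 ≤ κ → 0 < ε → 0 < β → ∃ c : ℝ, 0 < c ∧
      ∀ (τ : ℕ → Type) (s : ∀ j, Finset (τ j)) (v : ∀ j, τ j → Fin r → ℤ), PowerFlat β B s v →
        ∀ᶠ j in atTop, ({i : τ j | i ∈ s j ∧ ¬ Holds c d g κ A D (v j i)}.ncard : ℝ) ≤ ε * (s j).card) ∧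
    ExamplesP (Fin r) B := by
  refine ⟨fun d g κ ε β hg hκ hε hβ => ?_, examplesP _ _⟩
  obtain ⟨θ, m, hθ, h⟩ := power_big hD hM ε β B hε hβ
  obtain ⟨c₁, hc₁, h1⟩ := Pool.Agent.N365.LS.of_enough d g hg κ (2 * (m + 1) / θ) hκ (by positivity)
  refine ⟨c₁, hc₁, fun τ s v hs => ?_⟩
  refine h 1 τ s v hs _ fun n w hn hn1 hw hp hA hD' => ⟨hw, h1 _ _ ?_⟩
  obtain ⟨p, hp1, -, hp2, hp3, hp4⟩ := hp
  have hn' : (1 : ℝ) ≤ n := by exact_mod_cast hn1
  refine ⟨hw, {p}, ?_, (n : ℝ) ^ (m + 1), one_le_pow₀ hn', hA, hD', ?_, ?_⟩
  · intro q hq
    rw [Finset.mem_singleton] at hq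
    subst hq
    exact ⟨hp1, hp3, hp4⟩
  · intro h0
    exact hp4 (h0 ▸ dvd_zero _)
  · rw [Finset.prod_singleton, Real.log_pow]
    have h2 : θ * Real.log n ≤ Real.log p := by
      rw [← Real.log_rpow (by linarith)]
      exact Real.log_le_log (by positivity) hp2
    push_cast
    calc 2 * (((m : ℝ) + 1) * Real.log n) = 2 * (m + 1) / θ * (θ * Real.log n) := by field_simp
      _ ≤ 2 * (m + 1) / θ * Real.log p := mul_le_mul_of_nonneg_left h2 (by positivity)

end Pool.Agent.Results.MP_9a3c31_nt.ArbitrarySets
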