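import Pool.Agent.U536.CF.RatN
import Pool.Agent.Results.MP_9a3c31_nt.AllFieldsAllTwists

/-!
# The Lang-Silverman bound for the invariants near quotients of multiples of integers with large common factors with
# the values of multiplicative functions

Let `F_0`, `F_1` be positive multiplicative functions of at most polynomial growth with `F_i(p) ≤ M p` for the large
primes `p`, with different values at different large primes; for example Euler's function or the sum of the divisors. For
all `0 < τ < 1 / 2` there are `η > 0` and `ρ < 1` such that for all such `F_i`, all `b < 1` and `0 ≤ c < 2 b - 1` and all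
large `N`, the following holds for all but `N ^ 2 exp (-(log N)^c)` of the pairs `(m_0, m_1)` of positive integers `≤ N`.
For EVERY pair `w` of integers `w_i ≥ exp ((log N)^b)` such that `gcd(w_i, F_i(m_i)) ≥ w_j^ρ` for all `i`, `j`, and for
ALL integers `u_i ≠ 0` and `v_i` which are bounded in absolute value by `w_l ^ η` for some `l`, the following holds for
the integers `α_i = u_i w_i + v_i`, `α_1 ≠ 0`: if the rational number `j = α_0 / α_1` is not `0` or `1728`, for ALL
elliptic curves `E` over `ℚ` of invariant `j` (all twists), ALL powers `E^g`, ALL polarizations of `E^g` (positive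
definite matrices `M`) and ALL rational points `P ≠ 0` of `E^g`, the canonical height of `P` is at least `(1 - 2 τ) / 100`
times `1 + h(j) + ∑ log p`, the sum over the primes `p` of bad reduction (primes dividing 6 in the sense of the definition
`Bad`). In particular `E` has no torsion points. The pairs `w` include all pairs of large divisors `w_i` of the `F_i(m_i)`
of comparable size.

Proof. But for few exceptional `m ≤ N`, the number of `m` with `g ∣ F(m)` is at most `N τ_J(g) / g` up to a factor `exp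
((log N)^s)`, `J = (log N)^a`, `a < s < b`, for all `g`: write `m = k' u` with `u` squarefree and composed of primes
larger than `N^(1/J)`, `k' ≤ exp (4 (log N)^a)`. The pairs near exceptional pairs have a power saving, and so have the
pairs of the large divisors of their coordinates; the inequality `τ_J^q ≤ τ_K` for `K ≥ J^q` with Hölder's inequality
bounds the sum of `∏ τ_J(g_i) / g_i` over these. `AllFieldsAllTwists` of the starting library bounds the number of the
exceptional invariants of height at most `B` by `B^(2 - τ / 4)` up to a constant; the pairs of integers with a given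
quotient are counted by their greatest common divisors.
-/

set_option autoImplicit false

namespace Pool.Agent.Results.MP_9a3c31_nt.CommonFactors

open Pool.Agent.N733.TG (LM lm_totient lm_sigma)
open Pool.Agent.U536.CF (CommonT common_rat commonT_of_dvd)
open Pool.Agent.Results.MP_9a3c31_nt.AllFieldsAllTwists (LangSilverman Exc)

/-- **Lang and Silverman's bound for the invariants near quotients of multiples of integers with large common factors with the
values of multiplicative functions.** For all `0 < τ < 1 / 2` there are `η > 0` and `ρ < 1` such that for all `F_0`, `F_1`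
which are LM, all `b < 1` and `0 ≤ c < 2 b - 1` there is `N₀` such that for all `N ≥ N₀`: for all but at most `N ^ 2 exp
(-(log N)^c)` of the pairs `m` of positive integers `≤ N`, for EVERY pair `w` of integers `w_i ≥ exp ((log N)^b)` with
`gcd(w_i, F_i(m_i)) ≥ w_j^ρ` for all `i`, `j`, and for all integers `u_i ≠ 0`, `v_i` with `|u_i|, |v_i| ≤ w_l ^ η` (for
some `l` which does not depend on `i`) and `α_i = u_i w_i + v_i`, `α_1 ≠ 0`, the bound `LangSilverman` with the constant
`(1 - 2 τ) / 100` holds for the invariant `α_0 / α_1` if this is not `0` or `1728`. Euler's function and the sum of the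
divisors are LM. Pairs of divisors `w_i ≥ exp ((log N)^b)` of `F_i(m_i)` with `w_j^ρ ≤ w_i` are such pairs `w`. -/
theorem result :
    (∀ τ : ℝ, 0 < τ → τ < 1 / 2 → ∃ η ρ : ℝ, 0 < η ∧ 0 < ρ ∧ ρ < 1 ∧
      ∀ F : Fin 2 → ℕ → ℕ, (∀ i, LM (F i)) → ∀ b c : ℝ, b < 1 → 0 ≤ c → c < 2 * b - 1 →
      ∃ N₀ : ℕ, ∀ N : ℕ, N₀ ≤ N →
      ({m : Fin 2 → ℕ | (∀ i, 1 ≤ m i ∧ m i ≤ N) ∧ ¬ ∀ w : Fin 2 → ℕ, CommonT F b ρ N m w →
        ∀ u v α : Fin 2 → ℤ, (∃ l, ∀ i, u i ≠ 0 ∧ |(u i : ℝ)| ≤ (w l : ℝ) ^ η ∧ |(v i : ℝ)| ≤ (w l : ℝ) ^ η) →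
        (∀ i, α i = u i * (w i : ℤ) + v i) → α 1 ≠ 0 → (α 0 : ℚ) / (α 1 : ℚ) ≠ 0 →
        (α 0 : ℚ) / (α 1 : ℚ) ≠ 1728 → LangSilverman ((1 - 2 * τ) / 100) ((α 0 : ℚ) / (α 1 : ℚ))}.ncard : ℝ) ≤
        (N : ℝ) ^ 2 * Real.exp (-(Real.log N ^ c))) ∧
    (LM Nat.totient ∧ LM (fun m => ∑ d ∈ m.divisors, d)) ∧
    ∀ (F : Fin 2 → ℕ → ℕ) (b ρ : ℝ) (N : ℕ) (m w : Fin 2 → ℕ), (∀ i, Real.exp (Real.log N ^ b) ≤ (w i : ℝ)) →
      (∀ i, w i ∣ F i (m i)) → (∀ i j, (w j : ℝ) ^ ρ ≤ (w i : ℝ)) → CommonT F b ρ N m w := by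
  refine ⟨?_, ⟨lm_totient, lm_sigma⟩, fun F b ρ N m w h1 h2 h3 => commonT_of_dvd h1 h2 h3⟩
  intro τ hτ hτ2
  obtain ⟨M, hM, hcount⟩ := AllFieldsAllTwists.result.1 τ (τ / 4) hτ hτ2 (by positivity)
  obtain ⟨η, ρ, hη, hρ0, hρ1, hk⟩ := common_rat (s := 2 - τ / 4) (by linarith) (by linarith)
  refine ⟨η, ρ, hη, hρ0, hρ1, fun F hF b c hb hc hcb => ?_⟩
  have hcnt : ∀ B : ℝ, 1 ≤ B → {q : ℚ | q ∈ {j : ℚ | j ≠ 0 ∧ j ≠ 1728 ∧ ¬ LangSilverman ((1 - 2 * τ) / 100) j} ∧
      Height.logHeight₁ q ≤ Real.log B}.Finite ∧ ({q : ℚ | q ∈ {j : ℚ | j ≠ 0 ∧ j ≠ 1728 ∧ ¬ LangSilverman ((1 - 2 * τ) / 100) j} ∧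
      Height.logHeight₁ q ≤ Real.log B}.ncard : ℝ) ≤ M * B ^ (2 - τ / 4) := by
    intro B hB
    obtain ⟨h1, h2⟩ := hcount ℚ B hB
    have e : {q : ℚ | q ∈ {j : ℚ | j ≠ 0 ∧ j ≠ 1728 ∧ ¬ LangSilverman ((1 - 2 * τ) / 100) j} ∧
        Height.logHeight₁ q ≤ Real.log B} = Exc ℚ ((1 - 2 * τ) / 100) B := by
      ext q
      simp only [Exc, AllFieldsAllTwists.Inv, Set.mem_ofPred_eq, Module.finrank_self, Nat.cast_one, one_mul]
      tauto
    rw [e]
    refine ⟨h1.subset fun x hx => hx.1, ?_⟩
    rw [Module.finrank_self, pow_one] at h2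
    have e2 : 2 - τ / 2 + τ / 4 = 2 - τ / 4 := by ring
    rwa [e2] at h2
  obtain ⟨N₀, hN₀⟩ := hk M _ hcnt F hF b c hb hc hcb
  refine ⟨N₀, fun N hN => le_trans (le_of_eq ?_) (hN₀ N hN)⟩
  simp only [Set.mem_ofPred_eq, not_and, not_not]

end Pool.Agent.Results.MP_9a3c31_nt.CommonFactors
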