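import Mathlib
import Pool.Agent.U964.FM.LS

/-!
# Lang and Silverman's lower bound for all but finitely many sparse fibres of every one-parameter
# family of elliptic curves over `ℚ` with three multiplicative fibres

Let `J = A / D` be a rational function over `ℚ` of degree `N` with at least three poles on the
projective line, for example the `j`-invariant of an elliptic curve over `ℚ(T)` with three
multiplicative fibres (the Legendre family). We consider its values at the sparse rational numbers
`x`. Let `S` be a finite set of primes. A number is called sparse if it is a sum of at most `l`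
`S`-units with small integer coefficients, at most `B H(x) ^ δ`. The number `x` is called sparse if its
numerator, its denominator, a multiple `κ R` of the product `R` of the primes outside `S` at which `x`
meets a pole of `J` (or one of some of the poles), and the cofactor `(κ R) ^ m / G(x)`, `G` the form
with zeros at the poles, are sparse, `κ ≤ B H(x) ^ θ`. For integers `x` two finite poles suffice.

For all but finitely many sparse `x` the lower bound of Lang and Silverman holds for all elliptic
curves `E` of invariant `J(x)` over all number fields `K` of degree at most `d` and for all forms over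
`K` of the powers `E ^ g`, with a constant `c > 0` that depends only on `d`, `g`, on the ratio of
`N + 1` and `γ - 2 - θ`, where `γ` is the number of the poles, and on `κ₀` (see below), not on `J`, `S`,
`l`, `m`, `B`. There is no exceptional set of positive dimension or growth.

`E : y² = x³ + a x + b` is an elliptic curve of invariant `j` with `a`, `b` integral of height at
most `κ₀ (1 + h(j))`.  A finite Galois extension `L` of `K` and a representation `ρ` of its group by
integral matrices of size `g` define an abelian variety `A` over `K`, the form of `E ^ g` with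
`A(K) = {P ∈ E(L) ^ g | ρ(σ) σ(P) = P for all σ}` (`FixedPt ρ P`); for `g = 1` these are `E` and all
its quadratic twists.  A symmetric positive definite integral matrix `M` with
`ρ(σ)ᵀ M ρ(σ) = M` (`Polar ρ M`) is a polarization of `A` over `K`; the corresponding absolute
canonical height is `chatM M P / [L : ℚ]`.

`Pts L a b` is the group of points over `L`, `sht P` the height of the `x`-coordinate, `chat P` the
canonical height (`ChatLim`: the limit of `4⁻ⁿ sht (2ⁿ P)`), and `RamPrimes K T` says that for each
prime `v` in `T` there is `σ ≠ 1` in the inertia group.  `logNorms T` is the sum of `log N v`,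
`v ∈ T`, and `absH` is the absolute logarithmic height.  `DenseOrbit ρ P` says that no non-zero
homomorphism from `E ^ g` to `E` given by integers kills, modulo torsion, all `φ(P)`, `φ` an
integral matrix commuting with `ρ`, that is an endomorphism of `A` over `K`.  `Generates P` says
that `σ(P) ≠ P` for `σ ≠ 1`.
-/

set_option autoImplicit false

namespace Pool.Agent.Results.MP_9a3c31_nt.SparseFibres

open Pool.Agent.TH910.LS Pool.Agent.Y725.LS NumberField IsDedekindDomain Polynomial

/-- the bound, with constant `c`, for all forms of dimension `g` of the powers of the curve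
`y² = x³ + a x + b` over `K` that are split by `L` -/
def LangSilverman (c : ℝ) (g : ℕ) {K : Type} [Field K] [NumberField K] (a b : 𝓞 K) (L : Type)
    [Field L] [NumberField L] [Algebra K L] [DecidableEq L] : Prop :=
  ∀ (ρ : (L ≃ₐ[K] L) →* Matrix (Fin g) (Fin g) ℤ) (M : Matrix (Fin g) (Fin g) ℤ)
    (P : Fin g → Pts L a b) (T : Finset (HeightOneSpectrum (𝓞 L))),
    Polar ρ M → FixedPt ρ P → RamPrimes K T →
    (Generates P ∧ ¬ IsOfFinAddOrder P) ∨ (Faithful ρ ∧ DenseOrbit ρ P) →
      c * (1 + absH (jinv (a : K) b) + logNorms T / Module.finrank ℚ L) ≤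
        chatM M P / Module.finrank ℚ L

/-- the bound, with constant `c`, holds for all elliptic curves of invariant `j` over all number
fields of degree at most `d`, given by an integral equation `y² = x³ + a x + b` whose coefficients
have height at most `κ (1 + h(j))`, and for all forms of dimension `g` of their powers -/
def HoldsAt (c : ℝ) (d g : ℕ) (κ : ℝ) (j : ℚ) : Prop :=
  ∀ (K : Type) [Field K] [NumberField K], Module.finrank ℚ K ≤ d →
    ∀ a b : 𝓞 K, 4 * (a : K) ^ 3 + 27 * (b : K) ^ 2 ≠ 0 →
      absH (a : K) + absH (b : K) ≤ κ * (1 + absH (jinv (a : K) b)) → jinv (a : K) b = (j : K) →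
      ∀ (L : Type) [Field L] [NumberField L] [Algebra K L] [IsGalois K L] [DecidableEq L],
        ChatLim L a b ∧ LangSilverman c g a b L

/-- `A / D` is a rational function of degree `N ≥ 1` in lowest terms -/
structure IsFunction (N : ℕ) (A D : ℤ[X]) : Prop where
  pos : 1 ≤ N
  deg_num : A.natDegree ≤ N
  deg_den : D.natDegree ≤ N
  deg : A.natDegree = N ∨ D.natDegree = N
  coprime : IsCoprime (A.map (Int.castRingHom ℚ)) (D.map (Int.castRingHom ℚ))

/-- the height `H(x) = max (|numerator|, denominator)` of a rational number -/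
noncomputable def H (x : ℚ) : ℝ := max |(x.num : ℝ)| (x.den : ℝ)

/-- the value `∑ F_i s ^ i t ^ (γ - i)` at `x = s / t` of the binary form of degree `γ` attached to
the polynomial `F` -/
noncomputable def form (γ : ℕ) (F : ℤ[X]) (x : ℚ) : ℤ :=
  ∑ i ∈ Finset.range (γ + 1), F.coeff i * x.num ^ i * (x.den : ℤ) ^ (γ - i)

/-- the product of the primes outside `S` which divide the value of the form -/
noncomputable def radical (S : Finset ℕ) (γ : ℕ) (F : ℤ[X]) (x : ℚ) : ℕ :=
  ∏ p ∈ (form γ F x).natAbs.primeFactors \ S, p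

/-- `u` is an `S`-unit: plus or minus a product of powers (with integer exponents) of the primes in
`S` -/
def IsSUnit (S : Finset ℕ) (u : ℚ) : Prop :=
  ∃ (σ : ℤ) (e : ℕ → ℤ), (σ = 1 ∨ σ = -1) ∧ u = σ * ∏ p ∈ S, (p : ℚ) ^ e p

/-- the rational number `z` is a sum of `l` `S`-units with integer coefficients of absolute value at
most `R` -/
def IsSparse (S : Finset ℕ) (l : ℕ) (R : ℝ) (z : ℚ) : Prop :=
  ∃ (u : Fin l → ℚ) (c : Fin l → ℤ), (∀ j, IsSUnit S (u j)) ∧ (∀ j, |(c j : ℝ)| ≤ R) ∧
    z = ∑ j, u j * c j

/-- The sparse points `x` of the line: for some positive integer `κ ≤ B H(x) ^ θ` the numerator and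
the denominator of `x`, the multiple `κ R` of the radical `R` of the value of the form and the
cofactor `(κ R) ^ m / form` are sums of `l` `S`-units with integer coefficients of absolute value at
most `B H(x) ^ δ`. -/
def IsSparsePoint (S : Finset ℕ) (l m : ℕ) (B θ δ : ℝ) (γ : ℕ) (F : ℤ[X]) (x : ℚ) : Prop :=
  form γ F x ≠ 0 ∧ ∃ κ : ℕ, 0 < κ ∧ (κ : ℝ) ≤ B * H x ^ θ ∧
    IsSparse S l (B * H x ^ δ) x.num ∧ IsSparse S l (B * H x ^ δ) x.den ∧
    IsSparse S l (B * H x ^ δ) (κ * radical S γ F x : ℕ) ∧
    IsSparse S l (B * H x ^ δ) (((κ * radical S γ F x : ℕ) : ℚ) ^ m / form γ F x)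

theorem finite_height (T : ℝ) : {x : ℚ | H x ≤ T}.Finite := by
  refine (NumberField.finite_setOfPred_logHeight₁_le (K := ℚ) (Real.log T)).subset ?_
  intro x hx
  have hH : 0 < H x := lt_max_of_lt_right (by exact_mod_cast x.den_pos)
  show Height.logHeight₁ x ≤ Real.log T
  have e : Height.logHeight₁ x = Real.log (H x) := by
    rw [Rat.logHeight₁_eq_log_max]
    unfold H
    congr 1
    push_cast
    rw [Nat.cast_natAbs, Int.cast_abs]
  rw [e]
  exact Real.log_le_log hH hx

/-- **Theorem.** (1) For all `d`, `g`, `κ₀` and `σ` there is a constant `c > 0` with the following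
property. Let `J = A / D` be a rational function of degree `N` over `ℚ`, `F` a squarefree polynomial
dividing `D`, `e = 0` or `e = 1`, `γ = deg F + e`, `S` a finite set of primes, `ε > 0` and
`2 (N + 1) ≤ σ (γ - 2 - θ - ε)`, `0 < γ - 2 - θ - ε`. There is `δ > 0` such that the lower bound with
the constant `c` holds for all elliptic curves of invariant `J(x)` over number fields of degree at
most `d` and all forms of their `g`-th powers, for all but finitely many sparse rational numbers `x`
which are not poles of `J`; if `e = 1` we suppose that `J` has a pole at infinity or that `x` is an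
integer. (2) Every `j ≠ 0, 1728` is the invariant of a curve with small coefficients, as assumed in
`HoldsAt`, with a `κ₀` depending only on `d`. -/
theorem result :
    (∀ (d g : ℕ) (κ₀ σ : ℝ), 0 < g → 0 ≤ κ₀ → 0 ≤ σ → ∃ c : ℝ, 0 < c ∧
      ∀ (N : ℕ) (A D : ℤ[X]), IsFunction N A D → ∀ F : ℤ[X],
        Squarefree (F.map (Int.castRingHom ℚ)) →
        F.map (Int.castRingHom ℚ) ∣ D.map (Int.castRingHom ℚ) →
        ∀ e : ℕ, e ≤ 1 → 2 ≤ F.natDegree + e → ∀ S : Finset ℕ, (∀ p ∈ S, p.Prime) →
        ∀ (l m : ℕ) (B θ ε : ℝ), 0 < ε → 0 < (F.natDegree + e : ℕ) - 2 - θ - ε →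
          2 * ((N : ℝ) + 1) ≤ σ * ((F.natDegree + e : ℕ) - 2 - θ - ε) →
        ∃ δ : ℝ, 0 < δ ∧
          {x : ℚ | IsSparsePoint S l m B θ δ (F.natDegree + e) F x ∧
            (e = 1 → D.natDegree < N ∨ x.den = 1) ∧ aeval x D ≠ 0 ∧
            ¬ HoldsAt c d g κ₀ (aeval x A / aeval x D)}.Finite) ∧
    (∀ d : ℕ, ∃ κ : ℝ, 0 ≤ κ ∧ ∀ (K : Type) [Field K] [NumberField K],
      Module.finrank ℚ K ≤ d → ∀ j : K, j ≠ 0 → j ≠ 1728 → ∃ a b : 𝓞 K,
        4 * (a : K) ^ 3 + 27 * (b : K) ^ 2 ≠ 0 ∧ jinv (a : K) b = j ∧
        absH (a : K) + absH (b : K) ≤ κ * (1 + absH j)) := by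
  refine ⟨fun d g κ₀ σ hg hκ hσ0 => ?_, Pool.Agent.Y728.AK.exists_model⟩
  obtain ⟨c, hc, h1⟩ := Pool.Agent.N365.LS.of_enough d g hg κ₀ σ hκ hσ0
  refine ⟨c, hc, ?_⟩
  intro N A D hJ F hsq hFD e he h2 S hS l m B θ ε hε hη hσ
  have hD0 : D ≠ 0 := (⟨hJ.pos, hJ.deg_num, hJ.deg_den, hJ.deg, hJ.coprime⟩ :
    Pool.Agent.N365.LS.Rat N A D).D0
  obtain ⟨δ, H₀, hδ, hmain⟩ := Pool.Agent.U964.FM.enough_sparse hJ.deg_num hJ.deg_den hD0 hJ.deg
    hJ.coprime hsq hFD e he h2 S hS l m B θ ε σ hε hη hσ
  refine ⟨δ, hδ, (finite_height H₀).subset ?_⟩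
  rintro x ⟨⟨hG0, κ, hκ0, hκB, k1, k2, k3, k4⟩, hex, hDx, hn⟩
  by_contra hH
  apply hn
  have hden0 : (x.den : ℤ) ≠ 0 := by exact_mod_cast x.den_nz
  have hxe : ((x.num : ℚ) / ((x.den : ℤ) : ℚ)) = x := by
    rw [Int.cast_natCast]; exact Rat.num_div_den x
  have eA := Pool.Agent.Y670.RD.fvq hJ.deg_num (s := x.num) hden0
  have eD := Pool.Agent.Y670.RD.fvq hJ.deg_den (s := x.num) hden0
  rw [hxe] at eA eD
  have htN : (((x.den : ℤ) : ℚ)) ^ N ≠ 0 := pow_ne_zero _ (by exact_mod_cast hden0)
  have hF0 : Pool.Agent.Y670.RD.fv N D x.num x.den ≠ 0 := by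
    intro h
    rw [h, Int.cast_zero] at eD
    exact mul_ne_zero htN hDx eD.symm
  have hJ' : (aeval x A / aeval x D : ℚ) =
      (Pool.Agent.Y670.RD.fv N A x.num x.den : ℤ) /
        (Pool.Agent.Y670.RD.fv N D x.num x.den : ℤ) := by
    rw [eA, eD]
    field_simp
  rw [hJ']
  refine h1 _ _ (hmain x κ (((κ * radical S (F.natDegree + e) F x : ℕ) : ℚ) ^ m /
    form (F.natDegree + e) F x) hex hκ0 hκB hG0 hF0 (by
      have hne : ((form (F.natDegree + e) F x : ℤ) : ℚ) ≠ 0 := by exact_mod_cast hG0
      change ((κ * radical S (F.natDegree + e) F x : ℕ) : ℚ) ^ m =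
        (form (F.natDegree + e) F x : ℚ) * (((κ * radical S (F.natDegree + e) F x : ℕ) : ℚ) ^ m /
          (form (F.natDegree + e) F x : ℚ))
      field_simp) k1 k2 k3 k4 (not_le.1 hH).le)

end Pool.Agent.Results.MP_9a3c31_nt.SparseFibres
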